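import Pool.Agent.Helper382_Rep.Key

/-! The slopes of a tensor product determine the slopes of the factors, under Mazur's inequality. -/

set_option autoImplicit false

namespace Pool.Agent.Helper382_Rep

open MeasureTheory

theorem exists_bound {n : ℕ} (u t : Fin n → ℝ) : ∃ R : ℝ, 0 < R ∧ (∀ i, |u i| ≤ R) ∧ ∀ i, |t i| ≤ R := by
  classical
  have hsum0 : 0 ≤ ∑ i, (|u i| + |t i|) :=
    Finset.sum_nonneg fun i _ => add_nonneg (abs_nonneg _) (abs_nonneg _)
  have hi : ∀ i, |u i| + |t i| ≤ ∑ i, (|u i| + |t i|) := fun i =>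
    Finset.single_le_sum (f := fun i => |u i| + |t i|)
      (fun i _ => add_nonneg (abs_nonneg _) (abs_nonneg _)) (Finset.mem_univ i)
  refine ⟨1 + ∑ i, (|u i| + |t i|), by linarith, fun i => ?_, fun i => ?_⟩
  · have := hi i
    have := abs_nonneg (t i)
    linarith
  · have := hi i
    have := abs_nonneg (u i)
    linarith

theorem sum_le {n : ℕ} (u t : Fin n → ℝ)
    (hle : ∀ s : ℝ, ∑ i, max s (u i) ≤ ∑ i, max s (t i)) : ∑ i, u i ≤ ∑ i, t i := by
  obtain ⟨R, -, hu, ht⟩ := exists_bound u t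
  have h := hle (-R)
  rw [Finset.sum_congr rfl fun i _ => max_eq_right (abs_le.1 (hu i)).1,
    Finset.sum_congr rfl fun i _ => max_eq_right (abs_le.1 (ht i)).1] at h
  exact h

theorem moment_le {n : ℕ} (u t : Fin n → ℝ)
    (hle : ∀ s : ℝ, ∑ i, max s (u i) ≤ ∑ i, max s (t i)) (h1 : ∑ i, u i = ∑ i, t i) :
    ∑ i, u i ^ 2 ≤ ∑ i, t i ^ 2 := by
  classical
  obtain ⟨R, hR, hu, ht⟩ := exists_bound u t
  have hcm : ∀ y : ℝ, IntervalIntegrable (fun x : ℝ => max x y) volume (-R) R := fun y =>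
    (continuous_id.max continuous_const).intervalIntegrable _ _
  have hpos : 0 ≤ ∫ x in (-R)..R, ∑ i, (max x (t i) - max x (u i)) := by
    refine intervalIntegral.integral_nonneg (by linarith) fun x _ => ?_
    rw [Finset.sum_sub_distrib]
    exact sub_nonneg.2 (hle x)
  have hsplit : ∫ x in (-R)..R, ∑ i, (max x (t i) - max x (u i)) =
      ∑ i, ∫ x in (-R)..R, (max x (t i) - max x (u i)) :=
    intervalIntegral.integral_finset_sum fun i _ => (hcm (t i)).sub (hcm (u i))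
  rw [hsplit] at hpos
  have e : ∀ i, ∫ x in (-R)..R, (max x (t i) - max x (u i)) =
      R * (t i - u i) + (t i ^ 2 - u i ^ 2) / 2 := by
    intro i
    rw [intervalIntegral.integral_sub (hcm (t i)) (hcm (u i)),
      integral_max R (t i) (abs_le.1 (ht i)).1 (abs_le.1 (ht i)).2,
      integral_max R (u i) (abs_le.1 (hu i)).1 (abs_le.1 (hu i)).2]
    ring
  rw [Finset.sum_congr rfl fun i _ => e i, Finset.sum_add_distrib, ← Finset.mul_sum,
    ← Finset.sum_div, Finset.sum_sub_distrib, Finset.sum_sub_distrib, h1, sub_self, mul_zero,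
    zero_add] at hpos
  linarith

/-- from the moments to the multisets -/
theorem final {n : ℕ} (N T : Fin n → ℝ) (hN : ∀ i, 0 < N i) (hT : ∀ i, 0 < T i)
    (hle : ∀ s : ℝ, ∑ i, max s (Real.log (N i)) ≤ ∑ i, max s (Real.log (T i)))
    (h1 : ∑ i, Real.log (N i) = ∑ i, Real.log (T i))
    (h2 : ∑ i, Real.log (N i) ^ 2 = ∑ i, Real.log (T i) ^ 2) :
    Finset.univ.val.map N = Finset.univ.val.map T := by
  have hall : ∀ r : ℝ, 0 < r → ∏ i, max r (N i) = ∏ i, max r (T i) := by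
    intro r hr
    have e := eq_of_moment _ _ hle h1 h2 (Real.log r)
    have e7 := prod_max N hN (Real.log r)
    have e8 := prod_max T hT (Real.log r)
    rw [Real.exp_log hr] at e7 e8
    rw [e7, e8, e]
  obtain ⟨r1, hr1, h3⟩ := Pool.Agent.W528.Ord.exists_lower (Finset.univ.val.map N) (by
    intro x hx
    obtain ⟨i, -, rfl⟩ := Multiset.mem_map.1 hx
    exact hN i)
  obtain ⟨r2, hr2, h4⟩ := Pool.Agent.W528.Ord.exists_lower (Finset.univ.val.map T) (by
    intro x hx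
    obtain ⟨i, -, rfl⟩ := Multiset.mem_map.1 hx
    exact hT i)
  refine Pool.Agent.W518.DN.eq_of_prod_max (min r1 r2) (lt_min hr1 hr2) n _ _ (by simp) (by simp)
    (fun x hx => (min_le_left _ _).trans (h3 x hx))
    (fun x hx => (min_le_right _ _).trans (h4 x hx)) ?_
  intro r hr
  have hr0 : 0 < r := lt_of_lt_of_le (lt_min hr1 hr2) hr
  rw [Multiset.map_map, Multiset.map_map]
  exact hall r hr0

theorem log_le {n : ℕ} (N T : Fin n → ℝ) (hN : ∀ i, 0 < N i) (hT : ∀ i, 0 < T i)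
    (hle : ∀ r : ℝ, 0 < r → ∏ i, max r (N i) ≤ ∏ i, max r (T i)) (s : ℝ) :
    ∑ i, max s (Real.log (N i)) ≤ ∑ i, max s (Real.log (T i)) := by
  have e := hle (Real.exp s) (Real.exp_pos s)
  rw [prod_max N hN, prod_max T hT, Real.exp_le_exp] at e
  exact e

theorem sum_pair {m n : ℕ} (u : Fin m → ℝ) (v : Fin n → ℝ) :
    ∑ y ∈ (Finset.univ ×ˢ Finset.univ : Finset (Fin m × Fin n)), (u y.1 + v y.2) =
      n * ∑ i, u i + m * ∑ j, v j := by
  rw [Finset.sum_product]
  simp only [Finset.sum_add_distrib, Finset.sum_const, Finset.card_univ, Fintype.card_fin,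
    nsmul_eq_mul, ← Finset.mul_sum]

theorem sq_pair {m n : ℕ} (u : Fin m → ℝ) (v : Fin n → ℝ) :
    ∑ y ∈ (Finset.univ ×ˢ Finset.univ : Finset (Fin m × Fin n)), (u y.1 + v y.2) ^ 2 =
      n * ∑ i, u i ^ 2 + m * ∑ j, v j ^ 2 + 2 * ((∑ i, u i) * ∑ j, v j) := by
  rw [Finset.sum_product]
  have h : ∀ i j, (u i + v j) ^ 2 = u i ^ 2 + v j ^ 2 + 2 * (u i * v j) := fun i j => by ring
  simp only [h, Finset.sum_add_distrib, Finset.sum_const, Finset.card_univ, Fintype.card_fin,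
    nsmul_eq_mul, ← Finset.mul_sum]
  rw [← Finset.sum_mul]

/-- **The slopes of a tensor product determine the slopes of the factors.** -/
theorem factor_eq {m n : ℕ} (hm : 0 < m) (hn : 0 < n) (N : Fin m → ℝ) (N' : Fin n → ℝ)
    (hN : ∀ i, 0 ≤ N i) (hN' : ∀ i, 0 ≤ N' i) (T : Fin m → ℝ) (T' : Fin n → ℝ)
    (hT : ∀ i, 0 < T i) (hT' : ∀ i, 0 < T' i)
    (he : (Finset.univ ×ˢ Finset.univ : Finset (Fin m × Fin n)).val.map (fun y => N y.1 * N' y.2) =
      (Finset.univ ×ˢ Finset.univ : Finset (Fin m × Fin n)).val.map (fun y => T y.1 * T' y.2))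
    (hle : ∀ r : ℝ, 0 < r → ∏ i, max r (N i) ≤ ∏ i, max r (T i))
    (hle' : ∀ r : ℝ, 0 < r → ∏ i, max r (N' i) ≤ ∏ i, max r (T' i)) :
    Finset.univ.val.map N = Finset.univ.val.map T := by
  have hne : ∀ i j, N i * N' j ≠ 0 := by
    intro i j
    have h1 : N i * N' j ∈ (Finset.univ ×ˢ Finset.univ : Finset (Fin m × Fin n)).val.map
        (fun y => N y.1 * N' y.2) :=
      Multiset.mem_map.2 ⟨(i, j), by simp, rfl⟩
    rw [he] at h1
    obtain ⟨y, -, hy⟩ := Multiset.mem_map.1 h1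
    rw [← hy]
    exact (mul_pos (hT _) (hT' _)).ne'
  have hNp : ∀ i, 0 < N i := fun i =>
    lt_of_le_of_ne (hN i) (left_ne_zero_of_mul (hne i ⟨0, hn⟩)).symm
  have hNp' : ∀ j, 0 < N' j := fun j =>
    lt_of_le_of_ne (hN' j) (right_ne_zero_of_mul (hne ⟨0, hm⟩ j)).symm
  set u : Fin m → ℝ := fun i => Real.log (N i) with hu
  set v : Fin n → ℝ := fun i => Real.log (N' i) with hv
  set t : Fin m → ℝ := fun i => Real.log (T i) with ht
  set t' : Fin n → ℝ := fun i => Real.log (T' i) with ht'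
  have he' : (Finset.univ ×ˢ Finset.univ : Finset (Fin m × Fin n)).val.map
      (fun y => u y.1 + v y.2) =
      (Finset.univ ×ˢ Finset.univ : Finset (Fin m × Fin n)).val.map (fun y => t y.1 + t' y.2) := by
    have e := congrArg (Multiset.map Real.log) he
    rw [Multiset.map_map, Multiset.map_map] at e
    have e1 : (Real.log ∘ fun y : Fin m × Fin n => N y.1 * N' y.2) = fun y => u y.1 + v y.2 :=
      funext fun y => Real.log_mul (hNp _).ne' (hNp' _).ne'
    have e2 : (Real.log ∘ fun y : Fin m × Fin n => T y.1 * T' y.2) = fun y => t y.1 + t' y.2 :=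
      funext fun y => Real.log_mul (hT _).ne' (hT' _).ne'
    rw [e1, e2] at e
    exact e
  have hl := log_le N T hNp hT hle
  have hl' := log_le N' T' hNp' hT' hle'
  have s1 : ∑ i, u i ≤ ∑ i, t i := sum_le u t hl
  have s2 : ∑ i, v i ≤ ∑ i, t' i := sum_le v t' hl'
  have hm' : (0 : ℝ) < m := by exact_mod_cast hm
  have hn' : (0 : ℝ) < n := by exact_mod_cast hn
  have a1 : (n : ℝ) * ∑ i, u i + m * ∑ j, v j = n * ∑ i, t i + m * ∑ j, t' j := by
    rw [← sum_pair u v, ← sum_pair t t']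
    exact congrArg Multiset.sum he'
  have b1 : (n : ℝ) * ∑ i, u i ≤ n * ∑ i, t i := mul_le_mul_of_nonneg_left s1 hn'.le
  have b2 : (m : ℝ) * ∑ i, v i ≤ m * ∑ i, t' i := mul_le_mul_of_nonneg_left s2 hm'.le
  have h1 : ∑ i, u i = ∑ i, t i := mul_left_cancel₀ hn'.ne' (by linarith)
  have h1' : ∑ i, v i = ∑ i, t' i := mul_left_cancel₀ hm'.ne' (by linarith)
  have a2 : (n : ℝ) * ∑ i, u i ^ 2 + m * ∑ j, v j ^ 2 + 2 * ((∑ i, u i) * ∑ j, v j) =
      n * ∑ i, t i ^ 2 + m * ∑ j, t' j ^ 2 + 2 * ((∑ i, t i) * ∑ j, t' j) := by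
    rw [← sq_pair u v, ← sq_pair t t']
    have e := congrArg (fun M : Multiset ℝ => (M.map fun x => x ^ 2).sum) he'
    simp only [Multiset.map_map, Function.comp] at e
    exact e
  rw [h1, h1'] at a2
  have c1 := moment_le u t hl h1
  have c2 := moment_le v t' hl' h1'
  have d1 : (n : ℝ) * ∑ i, u i ^ 2 ≤ n * ∑ i, t i ^ 2 := mul_le_mul_of_nonneg_left c1 hn'.le
  have d2 : (m : ℝ) * ∑ i, v i ^ 2 ≤ m * ∑ i, t' i ^ 2 := mul_le_mul_of_nonneg_left c2 hm'.le
  have h2 : ∑ i, u i ^ 2 = ∑ i, t i ^ 2 := mul_left_cancel₀ hn'.ne' (by linarith)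
  exact final N T hNp hT hl h1 h2

end Pool.Agent.Helper382_Rep
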