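import Pool.Agent.Helper382_Ord.Class
import Pool.Agent.Helper382_Rep.Factor

/-! The class of compatible systems generated by motives with multiplications under direct sums,
tensor products, Tate twists, duals, direct summands, tensor factors, representations of `GL_n` and
roots of representations of `GL_n`. -/

set_option autoImplicit false
set_option linter.all false

namespace Pool.Agent.Helper382_Rep

open NumberField IsDedekindDomain Polynomial Filter Topology
open Pool.Agent.W401.Cheb Pool.Agent.W528.Ord Pool.Agent.R915.Ord Pool.Agent.W850.Ord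
open Pool.Agent.Helper382_Ord (Mazur norm_p')
open MultSystem (mv IsDeg1 IsOver norm_mem)

variable {K : Type} [Field K] [NumberField K] {ℓ : ℕ} [Fact ℓ.Prime] {ι : Type}

theorem exists_fun {α : Type} (s : Multiset α) (n : ℕ) (h : Multiset.card s = n) :
    ∃ f : Fin n → α, Finset.univ.val.map f = s := by
  subst h
  refine Quotient.inductionOn s fun l => ⟨l.get, ?_⟩
  exact (Fin.univ_val_map l.get).trans (congrArg _ (List.ofFn_get l))

theorem exists_perm {n : ℕ} {β : Type} (f g : Fin n → β)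
    (h : Finset.univ.val.map f = Finset.univ.val.map g) :
    ∃ σ : Equiv.Perm (Fin n), f = g ∘ σ := by
  classical
  have hc : ∀ y, Fintype.card {i // f i = y} = Fintype.card {i // g i = y} := by
    intro y
    have e := congrArg (Multiset.count y) h
    rw [Multiset.count_map, Multiset.count_map] at e
    rw [Fintype.card_subtype, Fintype.card_subtype, Finset.card_def, Finset.card_def,
      Finset.filter_val, Finset.filter_val]
    simpa [eq_comm] using e
  let E : ∀ y, {i // f i = y} ≃ {i // g i = y} := fun y => Fintype.equivOfCardEq (hc y)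
  let σ : Equiv.Perm (Fin n) := (Equiv.sigmaFiberEquiv f).symm.trans
    ((Equiv.sigmaCongrRight E).trans (Equiv.sigmaFiberEquiv g))
  refine ⟨σ, funext fun i => ?_⟩
  have h1 : g (σ i) = f i := (E (f i) ⟨i, rfl⟩).2
  exact h1.symm

theorem prodW_perm {n : ℕ} {F : Type} [CommMonoid F] {W : Multiset (Fin n → ℕ)}
    (hW : ∀ σ : Equiv.Perm (Fin n), W.map (fun w => w ∘ σ) = W) (σ : Equiv.Perm (Fin n))
    (x : Fin n → F) : prodW W (x ∘ σ) = prodW W x := by
  unfold prodW
  conv_rhs => rw [← hW σ.symm, Multiset.map_map]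
  refine Multiset.map_congr rfl fun w _ => ?_
  simp only [Function.comp]
  exact Fintype.prod_equiv σ _ _ fun i => by rw [Equiv.symm_apply_apply]

theorem prodW_map {n : ℕ} {F G : Type} [CommMonoid F] [CommMonoid G] (W : Multiset (Fin n → ℕ))
    (φ : F → G) (h1 : φ 1 = 1) (hφ : ∀ x y, φ (x * y) = φ x * φ y) (x : Fin n → F) :
    (prodW W x).map φ = prodW W (fun i => φ (x i)) := by
  let ψ : F →* G := { toFun := φ, map_one' := h1, map_mul' := hφ }
  unfold prodW
  rw [Multiset.map_map]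
  refine Multiset.map_congr rfl fun w _ => ?_
  change ψ (∏ i, x i ^ w i) = ∏ i, (ψ (x i)) ^ w i
  rw [map_prod]
  exact Finset.prod_congr rfl fun i _ => map_pow ψ _ _

theorem sumW_map {n : ℕ} (W : Multiset (Fin n → ℕ)) (q : ℝ) (h : Fin n → ℕ) :
    (sumW W h).map (fun a => q ^ a) = prodW W (fun i => q ^ h i) := by
  unfold prodW sumW
  rw [Multiset.map_map]
  refine Multiset.map_congr rfl fun w _ => ?_
  simp only [Function.comp]
  rw [← Finset.prod_pow_eq_pow_sum]
  exact Finset.prod_congr rfl fun i _ => by rw [mul_comm, pow_mul]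

/-- The class of the systems over `K` (with Frobenius eigenvalues `R v` at the places `v` and Hodge
slopes `H`) generated by the pieces of the motives `A i` under direct sums, tensor products, Tate
twists, duals, direct summands, tensor factors, polynomial representations `r` of `GL_n` (given by
the symmetric system `W` of their weights) and roots of representations: if `r(V)` is in the class,
where `r` is polynomial and not trivial on `SL_n` (`IsWeights`), and Mazur's inequality holds for `V`,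
then `V` is in the class. For direct summands and tensor factors Mazur's inequality is required for
both summands and both factors. Only the places of degree one outside `T` matter. -/
inductive Generated (A : ι → MotSystem K ℓ) (T : Finset ℕ) :
    (HeightOneSpectrum (𝓞 K) → Multiset (AlgebraicClosure K)) → Multiset ℕ → Prop
  | piece (i : ι) (σ : (A i).E →+* AlgebraicClosure K) :
      Generated A T (fun v => ((A i).poly v σ).roots) ((A i).h σ)
  | unit : Generated A T (fun _ => {1}) {0}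
  | sum (R₁ R₂ : HeightOneSpectrum (𝓞 K) → Multiset (AlgebraicClosure K)) (H₁ H₂ : Multiset ℕ) :
      Generated A T R₁ H₁ → Generated A T R₂ H₂ → Generated A T (fun v => R₁ v + R₂ v) (H₁ + H₂)
  | tensor (R₁ R₂ : HeightOneSpectrum (𝓞 K) → Multiset (AlgebraicClosure K)) (H₁ H₂ : Multiset ℕ) :
      Generated A T R₁ H₁ → Generated A T R₂ H₂ →
        Generated A T (fun v => (R₁ v ×ˢ R₂ v).map fun y => y.1 * y.2)
          ((H₁ ×ˢ H₂).map fun y => y.1 + y.2)
  | twist (j : ℕ) (R : HeightOneSpectrum (𝓞 K) → Multiset (AlgebraicClosure K)) (H : Multiset ℕ) :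
      Generated A T R H → Generated A T
        (fun v => (R v).map fun x => ((Ideal.absNorm v.asIdeal : ℕ) : AlgebraicClosure K) ^ j * x)
        (H.map fun a => j + a)
  | untwist (j : ℕ) (R : HeightOneSpectrum (𝓞 K) → Multiset (AlgebraicClosure K)) (H : Multiset ℕ) :
      Generated A T
        (fun v => (R v).map fun x => ((Ideal.absNorm v.asIdeal : ℕ) : AlgebraicClosure K) ^ j * x)
        (H.map fun a => j + a) → Generated A T R H
  | dual (w : ℕ) (R : HeightOneSpectrum (𝓞 K) → Multiset (AlgebraicClosure K)) (H : Multiset ℕ) :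
      (∀ a ∈ H, a ≤ w) → Generated A T R H → Generated A T
        (fun v => (R v).map fun x => ((Ideal.absNorm v.asIdeal : ℕ) : AlgebraicClosure K) ^ w / x)
        (H.map fun a => w - a)
  | summand (R₁ R₂ : HeightOneSpectrum (𝓞 K) → Multiset (AlgebraicClosure K)) (H₁ H₂ : Multiset ℕ) :
      Generated A T (fun v => R₁ v + R₂ v) (H₁ + H₂) → Mazur T R₁ H₁ → Mazur T R₂ H₂ →
        Generated A T R₁ H₁
  | factor (R₁ R₂ : HeightOneSpectrum (𝓞 K) → Multiset (AlgebraicClosure K)) (H₁ H₂ : Multiset ℕ) :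
      H₂ ≠ 0 → Generated A T (fun v => (R₁ v ×ˢ R₂ v).map fun y => y.1 * y.2)
        ((H₁ ×ˢ H₂).map fun y => y.1 + y.2) → Mazur T R₁ H₁ → Mazur T R₂ H₂ →
        Generated A T R₁ H₁
  | rep (n : ℕ) (W : Multiset (Fin n → ℕ))
      (α : HeightOneSpectrum (𝓞 K) → Fin n → AlgebraicClosure K) (h : Fin n → ℕ) :
      (∀ σ : Equiv.Perm (Fin n), W.map (fun w => w ∘ σ) = W) →
      Generated A T (fun v => Finset.univ.val.map (α v)) (Finset.univ.val.map h) →
        Generated A T (fun v => prodW W (α v)) (sumW W h)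
  | repRoot (n : ℕ) (W : Multiset (Fin n → ℕ))
      (α : HeightOneSpectrum (𝓞 K) → Fin n → AlgebraicClosure K) (h : Fin n → ℕ) :
      IsWeights W → Generated A T (fun v => prodW W (α v)) (sumW W h) →
      Mazur T (fun v => Finset.univ.val.map (α v)) (Finset.univ.val.map h) →
        Generated A T (fun v => Finset.univ.val.map (α v)) (Finset.univ.val.map h)
  | congr (R R' : HeightOneSpectrum (𝓞 K) → Multiset (AlgebraicClosure K)) (H : Multiset ℕ) :
      (∀ v, IsDeg1 T v → R v = R' v) → Generated A T R H → Generated A T R' H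

section main

variable [Fintype ι] (A : ι → MotSystem K ℓ) (χ : GK K →* (PadicAlgCl ℓ)ˣ)
  (S : ι → Finset ℕ) (hA : ∀ i, (A i).IsMotive χ (S i)) (T : Finset ℕ)

include hA in
/-- the objects of the class are ordinary at the places where all the pieces are ordinary -/
theorem generated_norm {v : HeightOneSpectrum (𝓞 K)} (hv : ∀ i, IsDeg1 (S i) v)
    (hvT : IsDeg1 T v)
    {Q : Ideal (𝓞 (AlgebraicClosure K))} (hQ : IsOver Q v) {p : ℕ} [Fact p.Prime]
    (hpe : Ideal.absNorm v.asIdeal = p) {τ : AlgebraicClosure K →+* PadicAlgCl p}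
    (hτ : ∀ x : 𝓞 (AlgebraicClosure K), x ∈ Q ↔ ‖τ (x : AlgebraicClosure K)‖ < 1)
    (hno : NoExcess A v Q) {R : HeightOneSpectrum (𝓞 K) → Multiset (AlgebraicClosure K)}
    {H : Multiset ℕ} (h : Generated A T R H) :
    (R v).map (fun y => ‖τ y‖) = H.map fun a => (1 / (p : ℝ)) ^ a := by
  have hp0 : (0 : ℝ) < 1 / (p : ℝ) := by
    have : (0 : ℝ) < p := by exact_mod_cast (Fact.out : p.Prime).pos
    positivity
  induction h with
  | piece i σ =>
    have h1 := MotSystem.roots_part (hA i) (hv i) hQ hpe hτ σ (fun k hk => hno i σ k hk)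
    rw [← h1]
    have e : (A i).poly v (τ.comp σ) = ((A i).poly v σ).map τ := by
      unfold MotSystem.poly
      rw [Polynomial.map_map]
      rfl
    rw [e, Splits.roots_map (IsAlgClosed.splits _), Multiset.map_map]
    rfl
  | unit => simp
  | sum R₁ R₂ H₁ H₂ _ _ ih₁ ih₂ =>
    rw [Multiset.map_add, Multiset.map_add, ih₁, ih₂]
  | tensor R₁ R₂ H₁ H₂ _ _ ih₁ ih₂ =>
    rw [Multiset.map_map, Multiset.map_map]
    have e1 : ((fun y => ‖τ y‖) ∘ fun y : AlgebraicClosure K × AlgebraicClosure K => y.1 * y.2) =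
        (fun z : ℝ × ℝ => z.1 * z.2) ∘ fun y => (‖τ y.1‖, ‖τ y.2‖) := by
      funext y
      simp [map_mul, norm_mul]
    have e2 : ((fun a => (1 / (p : ℝ)) ^ a) ∘ fun y : ℕ × ℕ => y.1 + y.2) =
        (fun z : ℝ × ℝ => z.1 * z.2) ∘ fun y => ((1 / (p : ℝ)) ^ y.1, (1 / (p : ℝ)) ^ y.2) := by
      funext y
      simp only [Function.comp, pow_add]
    rw [e1, e2, ← Multiset.map_map, ← Multiset.map_map,
      map_product (fun y => ‖τ y‖) (fun y => ‖τ y‖),
      map_product (fun a : ℕ => (1 / (p : ℝ)) ^ a) (fun a : ℕ => (1 / (p : ℝ)) ^ a), ih₁, ih₂]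
  | twist j R H _ ih =>
    rw [Multiset.map_map, Multiset.map_map, hpe]
    have e1 : ((fun y => ‖τ y‖) ∘ fun x : AlgebraicClosure K =>
        ((p : ℕ) : AlgebraicClosure K) ^ j * x) =
        (fun z : ℝ => (1 / (p : ℝ)) ^ j * z) ∘ fun y => ‖τ y‖ := by
      funext y
      simp only [Function.comp, map_mul, norm_mul, norm_p']
    have e2 : ((fun a => (1 / (p : ℝ)) ^ a) ∘ fun a : ℕ => j + a) =
        (fun z : ℝ => (1 / (p : ℝ)) ^ j * z) ∘ fun a => (1 / (p : ℝ)) ^ a := by
      funext a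
      simp only [Function.comp, pow_add]
    rw [e1, e2, ← Multiset.map_map, ← Multiset.map_map (fun z : ℝ => (1 / (p : ℝ)) ^ j * z), ih]
  | untwist j R H _ ih =>
    rw [Multiset.map_map, Multiset.map_map, hpe] at ih
    have e1 : ((fun y => ‖τ y‖) ∘ fun x : AlgebraicClosure K =>
        ((p : ℕ) : AlgebraicClosure K) ^ j * x) =
        (fun z : ℝ => (1 / (p : ℝ)) ^ j * z) ∘ fun y => ‖τ y‖ := by
      funext y
      simp only [Function.comp, map_mul, norm_mul, norm_p']
    have e2 : ((fun a => (1 / (p : ℝ)) ^ a) ∘ fun a : ℕ => j + a) =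
        (fun z : ℝ => (1 / (p : ℝ)) ^ j * z) ∘ fun a => (1 / (p : ℝ)) ^ a := by
      funext a
      simp only [Function.comp, pow_add]
    rw [e1, e2, ← Multiset.map_map, ← Multiset.map_map (fun z : ℝ => (1 / (p : ℝ)) ^ j * z)] at ih
    exact Multiset.map_injective (mul_right_injective₀ (pow_pos hp0 j).ne') ih
  | dual w R H hw _ ih =>
    rw [Multiset.map_map, Multiset.map_map, hpe]
    have e1 : ((fun y => ‖τ y‖) ∘ fun x : AlgebraicClosure K =>
        ((p : ℕ) : AlgebraicClosure K) ^ w / x) =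
        (fun z : ℝ => (1 / (p : ℝ)) ^ w / z) ∘ fun y => ‖τ y‖ := by
      funext y
      simp only [Function.comp, map_div₀, norm_div, norm_p']
    have e2 : H.map ((fun a => (1 / (p : ℝ)) ^ a) ∘ fun a : ℕ => w - a) =
        H.map ((fun z : ℝ => (1 / (p : ℝ)) ^ w / z) ∘ fun a => (1 / (p : ℝ)) ^ a) := by
      refine Multiset.map_congr rfl fun a ha => ?_
      simp only [Function.comp]
      rw [eq_div_iff (pow_pos hp0 a).ne', ← pow_add, Nat.sub_add_cancel (hw a ha)]
    rw [e1, e2, ← Multiset.map_map, ← Multiset.map_map (fun z : ℝ => (1 / (p : ℝ)) ^ w / z), ih]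
  | summand R₁ R₂ H₁ H₂ _ hm₁ hm₂ ih =>
    obtain ⟨P₁, hP₁, hab₁⟩ := hm₁ v hvT
    obtain ⟨P₂, hP₂, hab₂⟩ := hm₂ v hvT
    have a1 := hab₁ Q hQ
    have a2 := hab₂ Q hQ
    rw [hpe] at a1 a2
    have key := Pool.Agent.R915.Ord.summand hτ 0 a1 a2 (R₁ v + R₂ v) (H₁ + H₂) ih ?_ ?_
    · rw [← hP₁]
      exact key
    · rw [hP₁, hP₂]
      congr 1
      simp
    · congr 1
      simp
  | factor R₁ R₂ H₁ H₂ hne _ hm₁ hm₂ ih =>
    obtain ⟨P₁, hP₁, hab₁⟩ := hm₁ v hvT
    obtain ⟨P₂, hP₂, hab₂⟩ := hm₂ v hvT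
    have a1 := hab₁ Q hQ
    have a2 := hab₂ Q hQ
    rw [hpe] at a1 a2
    have hcard : ∀ (P : Polynomial (𝓞 (AlgebraicClosure K))) (H : Multiset ℕ), LiesAbove Q p P H →
        Multiset.card (rts P) = Multiset.card H := fun P H h => by
      unfold rts
      rw [splits_iff_card_roots.mp (IsAlgClosed.splits _), h.1.natDegree_map, h.2.1]
    obtain ⟨f₁, hf₁⟩ := exists_fun (R₁ v) (Multiset.card H₁) (by rw [← hP₁]; exact hcard _ _ a1)
    obtain ⟨f₂, hf₂⟩ := exists_fun (R₂ v) (Multiset.card H₂) (by rw [← hP₂]; exact hcard _ _ a2)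
    obtain ⟨h₁, hh₁⟩ := exists_fun H₁ (Multiset.card H₁) rfl
    obtain ⟨h₂, hh₂⟩ := exists_fun H₂ (Multiset.card H₂) rfl
    rcases Nat.eq_zero_or_pos (Multiset.card H₁) with h0 | hpos
    · have e1 : H₁ = 0 := Multiset.card_eq_zero.1 h0
      have e2 : R₁ v = 0 := by
        rw [← Multiset.card_eq_zero, ← hP₁, hcard _ _ a1, h0]
      rw [e1, e2]
      simp
    have hpos2 : 0 < Multiset.card H₂ := Multiset.card_pos.2 hne
    have g1 := above_gauss hτ a1
    have g2 := above_gauss hτ a2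
    rw [hP₁, ← hf₁] at g1
    rw [hP₂, ← hf₂] at g2
    have hH1 : ∀ r : ℝ, (H₁.map fun a => max r ((1 / (p : ℝ)) ^ a)).prod =
        ∏ i, max r ((1 / (p : ℝ)) ^ h₁ i) := fun r => by
      conv_lhs => rw [← hh₁, Multiset.map_map]
      rfl
    have hH2 : ∀ r : ℝ, (H₂.map fun a => max r ((1 / (p : ℝ)) ^ a)).prod =
        ∏ i, max r ((1 / (p : ℝ)) ^ h₂ i) := fun r => by
      conv_lhs => rw [← hh₂, Multiset.map_map]
      rfl
    have key := factor_eq hpos hpos2 (fun i => ‖τ (f₁ i)‖) (fun i => ‖τ (f₂ i)‖)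
      (fun _ => norm_nonneg _) (fun _ => norm_nonneg _) (fun i => (1 / (p : ℝ)) ^ h₁ i)
      (fun i => (1 / (p : ℝ)) ^ h₂ i) (fun _ => pow_pos hp0 _) (fun _ => pow_pos hp0 _) ?_ ?_ ?_
    · conv_rhs => rw [← hh₁]
      rw [← hf₁, Multiset.map_map, Multiset.map_map]
      exact key
    · have e := ih
      simp only at e
      conv_rhs at e => rw [← hh₁, ← hh₂]
      rw [← hf₁, ← hf₂, ← map_product, ← map_product, Multiset.map_map, Multiset.map_map,
        Multiset.map_map, Multiset.map_map] at e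
      rw [Finset.product_val]
      have e1 : ((fun y => ‖τ y‖) ∘ (fun y : AlgebraicClosure K × AlgebraicClosure K => y.1 * y.2) ∘
          fun y : Fin (Multiset.card H₁) × Fin (Multiset.card H₂) => (f₁ y.1, f₂ y.2)) =
          fun y => ‖τ (f₁ y.1)‖ * ‖τ (f₂ y.2)‖ := by
        funext y
        simp [map_mul, norm_mul]
      have e2 : ((fun a => (1 / (p : ℝ)) ^ a) ∘ (fun y : ℕ × ℕ => y.1 + y.2) ∘
          fun y : Fin (Multiset.card H₁) × Fin (Multiset.card H₂) => (h₁ y.1, h₂ y.2)) =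
          fun y => (1 / (p : ℝ)) ^ h₁ y.1 * (1 / (p : ℝ)) ^ h₂ y.2 := by
        funext y
        simp only [Function.comp, pow_add]
      rw [← e1, ← e2]
      exact e
    · intro r hr
      have e := g1 r hr
      rw [Multiset.map_map, Multiset.map_map, hH1] at e
      exact e
    · intro r hr
      have e := g2 r hr
      rw [Multiset.map_map, Multiset.map_map, hH2] at e
      exact e
  | rep n W α h hW _ ih =>
    rw [prodW_map W (fun y => ‖τ y‖) (by simp) (fun x y => by simp [map_mul, norm_mul]), sumW_map]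
    rw [Multiset.map_map, Multiset.map_map] at ih
    obtain ⟨σ, hσ⟩ := exists_perm _ _ ih
    have e : (fun i => ‖τ (α v i)‖) = (fun i => (1 / (p : ℝ)) ^ h i) ∘ σ := hσ
    rw [e, prodW_perm hW]
  | repRoot n W α h hW _ hm ih =>
    rw [prodW_map W (fun y => ‖τ y‖) (by simp) (fun x y => by simp [map_mul, norm_mul]), sumW_map]
      at ih
    obtain ⟨P, hP, hab⟩ := hm v hvT
    have a1 := hab Q hQ
    rw [hpe] at a1
    have g1 := above_gauss hτ a1
    rw [hP] at g1
    rw [Multiset.map_map, Multiset.map_map]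
    refine weights_eq hW (1 / (p : ℝ)) hp0 (fun i => ‖τ (α v i)‖) (fun _ => norm_nonneg _) h ih ?_
    intro r hr
    have e := g1 r hr
    rw [Multiset.map_map, Multiset.map_map, Multiset.map_map] at e
    exact e
  | congr R R' H hRR' _ ih =>
    rw [← hRR' v hvT]
    exact ih

end main

section down

variable {K₀ : Type} [Field K₀] [NumberField K₀] [Algebra K₀ K] [Fintype ι]
  (A : ι → MotSystem K ℓ) (χ : GK K →* (PadicAlgCl ℓ)ˣ)
  (S : ι → Finset ℕ) (hA : ∀ i, (A i).IsMotive χ (S i))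

/-- Over `K`, the system with the Frobenius polynomials `F` is in the class generated by the `A i`. -/
def PotentiallyGenerated (A : ι → MotSystem K ℓ) (T : Finset ℕ)
    (F : HeightOneSpectrum (𝓞 K₀) → ℤ[X]) (H : Multiset ℕ) : Prop :=
  ∃ R : HeightOneSpectrum (𝓞 K) → Multiset (AlgebraicClosure K), Generated A T R H ∧
    ∀ (v₀ : HeightOneSpectrum (𝓞 K₀)) (v : HeightOneSpectrum (𝓞 K)),
      v.asIdeal.comap (algebraMap (𝓞 K₀) (𝓞 K)) = v₀.asIdeal → IsDeg1 T v →
        ((F v₀).map (Int.castRingHom (AlgebraicClosure K))).roots = R v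

include hA in
theorem newton_of_generated {T : Finset ℕ} {F : HeightOneSpectrum (𝓞 K₀) → ℤ[X]} {H : Multiset ℕ}
    (hF : PotentiallyGenerated A T F H) (v₀ : HeightOneSpectrum (𝓞 K₀))
    (v : HeightOneSpectrum (𝓞 K))
    (h0 : v.asIdeal.comap (algebraMap (𝓞 K₀) (𝓞 K)) = v₀.asIdeal) (hv : Good A S v)
    (hvT : Ideal.absNorm v.asIdeal ∉ T) :
    NewtonSlopes (Ideal.absNorm v₀.asIdeal) (F v₀) H := by
  obtain ⟨hv1, hvS, Q, hQ, hno⟩ := hv
  obtain ⟨R, hR, hFR⟩ := hF
  have hs := hFR v₀ v h0 ⟨hv1, hvT⟩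
  rw [under_norm v hv1 v₀ h0]
  obtain ⟨p, hpe⟩ : ∃ p, Ideal.absNorm v.asIdeal = p := ⟨_, rfl⟩
  have hpp : p.Prime := hpe ▸ hv1
  haveI : Fact p.Prime := ⟨hpp⟩
  have hpQ := norm_mem hv1 hQ.2
  rw [hpe] at hpQ ⊢
  obtain ⟨τ, hτ⟩ := exists_tau (p := p) Q hQ.1 hpQ
  have key := generated_norm A χ S hA T (fun i => ⟨hv1, hvS i⟩) ⟨hv1, hvT⟩ hQ hpe hτ hno hR
  refine ⟨inferInstance, ?_⟩
  rw [← key, ← hs]
  have e : (F v₀).map (Int.castRingHom (PadicAlgCl p)) =
      ((F v₀).map (Int.castRingHom (AlgebraicClosure K))).map τ := by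
    rw [Polynomial.map_map]
    congr 1
    exact (RingHom.ext_int _ _)
  rw [e, Splits.roots_map (IsAlgClosed.splits _), Multiset.map_map]
  rfl

end down

end Pool.Agent.Helper382_Rep
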