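import Pool.Agent.Helper382_Rep.Weights

/-! The slopes of a representation determine the slopes, under Mazur's inequality. -/

set_option autoImplicit false

namespace Pool.Agent.Helper382_Rep

open Equiv

section

variable {n : ℕ} {W : Multiset (Fin n → ℕ)}

theorem sum_diff (W : Multiset (Fin n → ℕ)) (i j : Fin n) :
    (W.map fun w => ((w i : ℝ) - w j) ^ 2).sum = m2 W i i + m2 W j j - 2 * m2 W i j := by
  unfold m2
  induction W using Multiset.induction_on with
  | empty => simp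
  | cons a W ih =>
    simp only [Multiset.map_cons, Multiset.sum_cons, ih]
    ring

theorem exists_pos (hW : IsWeights W) :
    ∃ i₀ j₀, i₀ ≠ j₀ ∧ 0 < m2 W i₀ i₀ - m2 W i₀ j₀ ∧ 0 < m1 W i₀ := by
  obtain ⟨hs, w, hw, i, j, hij⟩ := hW
  have hne : i ≠ j := fun h => hij (by rw [h])
  refine ⟨i, j, hne, ?_, ?_⟩
  · have h1 := sum_diff W i j
    rw [← m2_diag hs i j] at h1
    have h2 : ((w i : ℝ) - w j) ^ 2 ≤ (W.map fun w => ((w i : ℝ) - w j) ^ 2).sum := by
      refine Multiset.single_le_sum ?_ _ (Multiset.mem_map_of_mem _ hw)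
      intro x hx
      obtain ⟨w', -, rfl⟩ := Multiset.mem_map.1 hx
      positivity
    have h3 : (0 : ℝ) < ((w i : ℝ) - w j) ^ 2 := by
      have : (w i : ℝ) - w j ≠ 0 := sub_ne_zero.2 (by exact_mod_cast hij)
      positivity
    linarith
  · have hle : ∀ k, (w k : ℝ) ≤ m1 W k := by
      intro k
      unfold m1
      refine Multiset.single_le_sum ?_ _ (Multiset.mem_map_of_mem (fun w : Fin n → ℕ => (w k : ℝ)) hw)
      intro x hx
      obtain ⟨w', -, rfl⟩ := Multiset.mem_map.1 hx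
      positivity
    have h1 := hle i
    have h2 := hle j
    rw [← m1_const hs i j] at h2
    rcases Nat.eq_zero_or_pos (w i) with h | h
    · have h3 : 0 < w j := by omega
      have h4 : (0 : ℝ) < w j := by exact_mod_cast h3
      linarith
    · have h4 : (0 : ℝ) < w i := by exact_mod_cast h
      linarith

theorem log_weight (x : Fin n → ℝ) (hx : ∀ i, 0 < x i) (w : Fin n → ℕ) :
    Real.log (∏ i, x i ^ w i) = ∑ i, (w i : ℝ) * Real.log (x i) := by
  have h1 : ∀ i, x i ^ w i = Real.exp ((w i : ℝ) * Real.log (x i)) := by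
    intro i
    rw [mul_comm, Real.exp_mul, Real.exp_log (hx i), Real.rpow_natCast]
  rw [Finset.prod_congr rfl fun i _ => h1 i, ← Real.exp_sum, Real.log_exp]

theorem prod_max (x : Fin n → ℝ) (hx : ∀ i, 0 < x i) (s : ℝ) :
    ∏ i, max (Real.exp s) (x i) = Real.exp (∑ i, max s (Real.log (x i))) := by
  rw [Real.exp_sum]
  refine Finset.prod_congr rfl fun i _ => ?_
  rw [Real.exp_monotone.map_max, Real.exp_log (hx i)]

theorem ne_zero_of (hW : IsWeights W) (q : ℝ) (hq : 0 < q) (N : Fin n → ℝ) (h : Fin n → ℕ)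
    (he : prodW W N = prodW W (fun i => q ^ h i)) (i : Fin n) : N i ≠ 0 := by
  obtain ⟨hs, w, hw, a, b, hab⟩ := hW
  obtain ⟨c, hc⟩ : ∃ c, w c ≠ 0 := by
    by_cases ha : w a = 0
    · exact ⟨b, fun hb => hab (by rw [ha, hb])⟩
    · exact ⟨a, ha⟩
  have hw' : w ∘ (swap i c) ∈ W := by
    rw [← hs (swap i c)]
    exact Multiset.mem_map_of_mem _ hw
  have h1 : (∏ k, N k ^ (w ∘ (swap i c)) k) ∈ prodW W N :=
    Multiset.mem_map_of_mem (fun w : Fin n → ℕ => ∏ k, N k ^ w k) hw'
  rw [he] at h1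
  obtain ⟨w'', -, h2⟩ := Multiset.mem_map.1 h1
  have h3 : 0 < ∏ k, N k ^ (w ∘ (swap i c)) k := by
    rw [← h2]
    exact Finset.prod_pos fun k _ => by positivity
  intro h0
  have h4 := (Finset.prod_ne_zero_iff.1 h3.ne') i (Finset.mem_univ i)
  rw [Function.comp_apply, swap_apply_left, h0] at h4
  exact h4 (zero_pow hc)

/-- **The slopes of `r(V)` determine the slopes of `V`.** -/
theorem weights_eq (hW : IsWeights W) (q : ℝ) (hq : 0 < q) (N : Fin n → ℝ) (hN : ∀ i, 0 ≤ N i)
    (h : Fin n → ℕ) (he : prodW W N = prodW W (fun i => q ^ h i))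
    (hle : ∀ r : ℝ, 0 < r → ∏ i, max r (N i) ≤ ∏ i, max r (q ^ h i)) :
    Finset.univ.val.map N = Finset.univ.val.map fun i => q ^ h i := by
  have hNp : ∀ i, 0 < N i := fun i => lt_of_le_of_ne (hN i) (ne_zero_of hW q hq N h he i).symm
  have hTp : ∀ i, 0 < q ^ h i := fun i => pow_pos hq _
  obtain ⟨i₀, j₀, h0, ha, hm⟩ := exists_pos hW
  have hs := hW.1
  set u : Fin n → ℝ := fun i => Real.log (N i) with hu
  set t : Fin n → ℝ := fun i => Real.log (q ^ h i) with ht
  have he' : (W.map fun w => ∑ i, (w i : ℝ) * u i) = W.map fun w => ∑ i, (w i : ℝ) * t i := by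
    have e := congrArg (Multiset.map Real.log) he
    unfold prodW at e
    rw [Multiset.map_map, Multiset.map_map] at e
    have e1 : (Real.log ∘ fun w : Fin n → ℕ => ∏ i, N i ^ w i) = fun w => ∑ i, (w i : ℝ) * u i :=
      funext fun w => log_weight N hNp w
    have e2 : (Real.log ∘ fun w : Fin n → ℕ => ∏ i, (q ^ h i) ^ w i) =
        fun w => ∑ i, (w i : ℝ) * t i := funext fun w => log_weight _ hTp w
    rw [e1, e2] at e
    exact e
  have h1 : ∑ i, u i = ∑ i, t i := by
    have e := congrArg Multiset.sum he'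
    rw [sum_lin, sum_lin] at e
    have e3 : ∀ x : Fin n → ℝ, ∑ i, m1 W i * x i = m1 W i₀ * ∑ i, x i := fun x => by
      rw [Finset.mul_sum]
      exact Finset.sum_congr rfl fun i _ => by rw [m1_const hs i i₀]
    rw [e3, e3] at e
    exact mul_left_cancel₀ hm.ne' e
  have h2 : ∑ i, u i ^ 2 = ∑ i, t i ^ 2 := by
    have e := congrArg (fun M : Multiset ℝ => (M.map fun x => x ^ 2).sum) he'
    simp only [Multiset.map_map, Function.comp] at e
    have e4 := sum_sq' hs u i₀ j₀ h0
    have e5 := sum_sq' hs t i₀ j₀ h0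
    have e6 : (W.map fun w => (∑ i, (w i : ℝ) * u i) ^ 2).sum =
        (W.map fun w => (∑ i, (w i : ℝ) * t i) ^ 2).sum := e
    rw [e4, e5, h1] at e6
    exact mul_left_cancel₀ ha.ne' (add_right_cancel e6)
  have hle' : ∀ s : ℝ, ∑ i, max s (u i) ≤ ∑ i, max s (t i) := by
    intro s
    have e := hle (Real.exp s) (Real.exp_pos s)
    rw [prod_max N hNp, prod_max _ hTp, Real.exp_le_exp] at e
    exact e
  have hall : ∀ r : ℝ, 0 < r → ∏ i, max r (N i) = ∏ i, max r (q ^ h i) := by
    intro r hr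
    have e := eq_of_moment u t hle' h1 h2 (Real.log r)
    have e7 := prod_max N hNp (Real.log r)
    have e8 := prod_max (fun i => q ^ h i) hTp (Real.log r)
    rw [Real.exp_log hr] at e7 e8
    rw [e7, e8, e]
  obtain ⟨r1, hr1, h3⟩ := Pool.Agent.W528.Ord.exists_lower (Finset.univ.val.map N) (by
    intro x hx
    obtain ⟨i, -, rfl⟩ := Multiset.mem_map.1 hx
    exact hNp i)
  obtain ⟨r2, hr2, h4⟩ := Pool.Agent.W528.Ord.exists_lower (Finset.univ.val.map fun i => q ^ h i) (by
    intro x hx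
    obtain ⟨i, -, rfl⟩ := Multiset.mem_map.1 hx
    exact hTp i)
  refine Pool.Agent.W518.DN.eq_of_prod_max (min r1 r2) (lt_min hr1 hr2) n _ _ (by simp) (by simp)
    (fun x hx => (min_le_left _ _).trans (h3 x hx))
    (fun x hx => (min_le_right _ _).trans (h4 x hx)) ?_
  intro r hr
  have hr0 : 0 < r := lt_of_lt_of_le (lt_min hr1 hr2) hr
  rw [Multiset.map_map, Multiset.map_map]
  exact hall r hr0

end

end Pool.Agent.Helper382_Rep
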