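import Mathlib

/-! A multiset of real numbers which is majorized by another one and has the same sum and the same sum
of squares is equal to it. -/

set_option autoImplicit false

namespace Pool.Agent.Helper382_Rep

open MeasureTheory

theorem integral_max (R t : ℝ) (h1 : -R ≤ t) (h2 : t ≤ R) :
    ∫ s in (-R)..R, max s t = R * t + t ^ 2 / 2 + R ^ 2 / 2 := by
  have hi : ∀ a b : ℝ, IntervalIntegrable (fun s : ℝ => max s t) volume a b := fun a b =>
    (continuous_id.max continuous_const).intervalIntegrable a b
  rw [← intervalIntegral.integral_add_adjacent_intervals (hi (-R) t) (hi t R)]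
  have e1 : ∫ s in (-R)..t, max s t = ∫ s in (-R)..t, t := by
    refine intervalIntegral.integral_congr fun s hs => ?_
    rw [Set.uIcc_of_le h1] at hs
    exact max_eq_right hs.2
  have e2 : ∫ s in t..R, max s t = ∫ s in t..R, s := by
    refine intervalIntegral.integral_congr fun s hs => ?_
    rw [Set.uIcc_of_le h2] at hs
    exact max_eq_left hs.1
  rw [e1, e2, intervalIntegral.integral_const, integral_id, smul_eq_mul]
  ring

/-- the key lemma: majorization with equal sums and equal sums of squares -/
theorem eq_of_moment {n : ℕ} (u t : Fin n → ℝ)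
    (hle : ∀ s : ℝ, ∑ i, max s (u i) ≤ ∑ i, max s (t i)) (h1 : ∑ i, u i = ∑ i, t i)
    (h2 : ∑ i, u i ^ 2 = ∑ i, t i ^ 2) (s : ℝ) : ∑ i, max s (u i) = ∑ i, max s (t i) := by
  classical
  refine le_antisymm (hle s) ?_
  by_contra hcon
  push Not at hcon
  -- a large interval
  set R : ℝ := |s| + 1 + ∑ i, (|u i| + |t i|) with hR
  have hsum0 : 0 ≤ ∑ i, (|u i| + |t i|) :=
    Finset.sum_nonneg fun i _ => add_nonneg (abs_nonneg _) (abs_nonneg _)
  have hi : ∀ i, |u i| + |t i| ≤ ∑ i, (|u i| + |t i|) := fun i =>
    Finset.single_le_sum (f := fun i => |u i| + |t i|)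
      (fun i _ => add_nonneg (abs_nonneg _) (abs_nonneg _)) (Finset.mem_univ i)
  have hu : ∀ i, |u i| ≤ R := fun i => by
    have := hi i
    have := abs_nonneg (t i)
    have := abs_nonneg s
    linarith
  have ht : ∀ i, |t i| ≤ R := fun i => by
    have := hi i
    have := abs_nonneg (u i)
    have := abs_nonneg s
    linarith
  have hs : |s| ≤ R := by linarith
  have hR0 : -R < R := by
    have := abs_nonneg s
    linarith
  have hc : Continuous fun x : ℝ => ∑ i, (max x (t i) - max x (u i)) :=
    continuous_finset_sum _ fun i _ =>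
      (continuous_id.max continuous_const).sub (continuous_id.max continuous_const)
  have hpos : 0 < ∫ x in (-R)..R, ∑ i, (max x (t i) - max x (u i)) := by
    refine intervalIntegral.integral_pos hR0 hc.continuousOn (fun x _ => ?_)
      ⟨s, ⟨(abs_le.1 hs).1, (abs_le.1 hs).2⟩, ?_⟩
    · rw [Finset.sum_sub_distrib]
      exact sub_nonneg.2 (hle x)
    · rw [Finset.sum_sub_distrib]
      exact sub_pos.2 hcon
  have hcm : ∀ y : ℝ, IntervalIntegrable (fun x : ℝ => max x y) volume (-R) R := fun y =>
    (continuous_id.max continuous_const).intervalIntegrable _ _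
  have hsplit : ∫ x in (-R)..R, ∑ i, (max x (t i) - max x (u i)) =
      ∑ i, ∫ x in (-R)..R, (max x (t i) - max x (u i)) :=
    intervalIntegral.integral_finset_sum fun i _ => (hcm (t i)).sub (hcm (u i))
  rw [hsplit] at hpos
  have e : ∀ i, ∫ x in (-R)..R, (max x (t i) - max x (u i)) =
      R * (t i - u i) + (t i ^ 2 - u i ^ 2) / 2 := by
    intro i
    rw [intervalIntegral.integral_sub (hcm (t i)) (hcm (u i)),
      integral_max R (t i) (abs_le.1 (ht i)).1 (abs_le.1 (ht i)).2,
      integral_max R (u i) (abs_le.1 (hu i)).1 (abs_le.1 (hu i)).2]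
    ring
  rw [Finset.sum_congr rfl fun i _ => e i, Finset.sum_add_distrib, ← Finset.mul_sum,
    ← Finset.sum_div, Finset.sum_sub_distrib, Finset.sum_sub_distrib, h1, h2, sub_self, sub_self] at hpos
  simp at hpos

end Pool.Agent.Helper382_Rep
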