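import Pool.Agent.Helper382_Rep.Moment
import Pool.Agent.R915.O2

/-! Symmetric systems of weights: the slopes of a representation determine the slopes. -/

set_option autoImplicit false

namespace Pool.Agent.Helper382_Rep

open Equiv

/-- the values of the weights in `W` on `α` -/
def prodW {n : ℕ} {F : Type} [CommMonoid F] (W : Multiset (Fin n → ℕ)) (α : Fin n → F) :
    Multiset F := W.map fun w => ∏ i, α i ^ w i

/-- the values of the weights in `W` on `h`, additively -/
def sumW {n : ℕ} (W : Multiset (Fin n → ℕ)) (h : Fin n → ℕ) : Multiset ℕ :=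
  W.map fun w => ∑ i, w i * h i

/-- `W` is symmetric and contains a weight which is not a multiple of `(1, …, 1)` -/
def IsWeights {n : ℕ} (W : Multiset (Fin n → ℕ)) : Prop :=
  (∀ σ : Perm (Fin n), W.map (fun w => w ∘ σ) = W) ∧ ∃ w ∈ W, ∃ i j, w i ≠ w j

section

variable {n : ℕ} (W : Multiset (Fin n → ℕ))

/-- the first moments -/
noncomputable def m1 (i : Fin n) : ℝ := (W.map fun w => (w i : ℝ)).sum

/-- the second moments -/
noncomputable def m2 (i j : Fin n) : ℝ := (W.map fun w => (w i : ℝ) * w j).sum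

theorem sum_lin (x : Fin n → ℝ) :
    (W.map fun w => ∑ i, (w i : ℝ) * x i).sum = ∑ i, m1 W i * x i := by
  unfold m1
  induction W using Multiset.induction_on with
  | empty => simp
  | cons a W ih =>
    simp only [Multiset.map_cons, Multiset.sum_cons, ih, add_mul, Finset.sum_add_distrib]

theorem sum_sq (x : Fin n → ℝ) :
    (W.map fun w => (∑ i, (w i : ℝ) * x i) ^ 2).sum = ∑ i, ∑ j, m2 W i j * (x i * x j) := by
  unfold m2
  induction W using Multiset.induction_on with
  | empty => simp
  | cons a W ih =>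
    simp only [Multiset.map_cons, Multiset.sum_cons, ih, add_mul, Finset.sum_add_distrib]
    congr 1
    rw [pow_two, Finset.sum_mul_sum]
    exact Finset.sum_congr rfl fun i _ => Finset.sum_congr rfl fun j _ => by ring

variable {W} (hW : ∀ σ : Perm (Fin n), W.map (fun w => w ∘ σ) = W)

include hW

theorem m1_perm (σ : Perm (Fin n)) (i : Fin n) : m1 W (σ i) = m1 W i := by
  unfold m1
  conv_rhs => rw [← hW σ, Multiset.map_map]
  rfl

theorem m2_perm (σ : Perm (Fin n)) (i j : Fin n) : m2 W (σ i) (σ j) = m2 W i j := by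
  unfold m2
  conv_rhs => rw [← hW σ, Multiset.map_map]
  rfl

theorem m1_const (i j : Fin n) : m1 W i = m1 W j := by
  have h := m1_perm hW (swap i j) i
  rw [swap_apply_left] at h
  exact h.symm

theorem m2_diag (i j : Fin n) : m2 W i i = m2 W j j := by
  have h := m2_perm hW (swap i j) i i
  rw [swap_apply_left] at h
  exact h.symm

theorem m2_off (i j k l : Fin n) (hij : i ≠ j) (hkl : k ≠ l) : m2 W i j = m2 W k l := by
  set σ : Perm (Fin n) := (swap i k).trans (swap (swap i k j) l) with hσ
  have h1 : σ i = k := by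
    rw [hσ, trans_apply, swap_apply_left]
    refine swap_apply_of_ne_of_ne ?_ hkl
    intro h
    have h2 : swap i k i = swap i k j := by rw [swap_apply_left]; exact h
    exact hij ((swap i k).injective h2)
  have h2 : σ j = l := by
    rw [hσ, trans_apply, swap_apply_left]
  have h := m2_perm hW σ i j
  rw [h1, h2] at h
  exact h.symm

/-- the quadratic form of the second moments -/
theorem sum_sq' (x : Fin n → ℝ) (i₀ j₀ : Fin n) (h0 : i₀ ≠ j₀) :
    (W.map fun w => (∑ i, (w i : ℝ) * x i) ^ 2).sum =
      (m2 W i₀ i₀ - m2 W i₀ j₀) * ∑ i, x i ^ 2 + m2 W i₀ j₀ * (∑ i, x i) ^ 2 := by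
  rw [sum_sq]
  have h1 : ∀ i j, m2 W i j * (x i * x j) =
      (if i = j then (m2 W i₀ i₀ - m2 W i₀ j₀) * x i ^ 2 else 0) + m2 W i₀ j₀ * (x i * x j) := by
    intro i j
    by_cases h : i = j
    · subst h
      rw [if_pos rfl, m2_diag hW i i₀]
      ring
    · rw [if_neg h, m2_off hW i j i₀ j₀ h h0, zero_add]
  simp only [h1, Finset.sum_add_distrib, Finset.sum_ite_eq, Finset.mem_univ, if_true]
  rw [← Finset.mul_sum]
  congr 1
  rw [pow_two, Finset.sum_mul_sum, Finset.mul_sum]
  exact Finset.sum_congr rfl fun i _ => by rw [Finset.mul_sum]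

end

end Pool.Agent.Helper382_Rep
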